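import Pool.Agent.Helper76.PP.Goals3

/-!
# Project PP, packet BPRC: the complex character
-/

set_option autoImplicit false

namespace Pool.Agent.Helper14.PP

open NumberField Module IsDedekindDomain
open Pool.Agent.Helper76.PP
open Pool.Agent.Helper51.PP (RC)

theorem b_prc : Pool.Agent.Helper76.PP.B_PRC := by
  intro p _ F _ _ 𝔪 ψ hψ ψ₁
  have hmul : ∀ I J : Ideal (𝓞 F), (I * J ≠ ⊥ ∧ I * J ⊔ 𝔪 = ⊤) ↔
      ((I ≠ ⊥ ∧ I ⊔ 𝔪 = ⊤) ∧ (J ≠ ⊥ ∧ J ⊔ 𝔪 = ⊤)) := by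
    intro I J
    rw [← Ideal.isCoprime_iff_sup_eq, ← Ideal.isCoprime_iff_sup_eq, ← Ideal.isCoprime_iff_sup_eq,
      IsCoprime.mul_left_iff, Ne, Ideal.mul_eq_bot]
    tauto
  refine
    { ne := hψ.ne
      zero := ?_
      mul := ?_
      cop := ?_
      ncop := ?_
      ray := ?_ }
  · unfold chI
    rw [if_neg]
    rintro ⟨h, -⟩
    exact h rfl
  · intro I J
    unfold chI
    by_cases hI : I ≠ ⊥ ∧ I ⊔ 𝔪 = ⊤
    · by_cases hJ : J ≠ ⊥ ∧ J ⊔ 𝔪 = ⊤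
      · rw [if_pos ((hmul I J).2 ⟨hI, hJ⟩), if_pos hI, if_pos hJ, hψ.mul I J hI.1 hJ.1,
          AddChar.map_add_eq_mul]
      · rw [if_neg (fun h => hJ ((hmul I J).1 h).2), if_neg hJ, mul_zero]
    · rw [if_neg (fun h => hI ((hmul I J).1 h).1), if_neg hI, zero_mul]
  · intro I hI hI2
    unfold chI
    rw [if_pos ⟨hI, hI2⟩]
    exact AddChar.norm_apply ψ₁ (ψ I)
  · intro I hI hI2
    unfold chI
    rw [if_neg (fun h => hI2 h.2)]
  · intro α hα hα1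
    unfold chI
    rw [if_pos, hψ.ray α hα hα1, AddChar.map_zero_eq_one]
    refine ⟨?_, ?_⟩
    · rw [Ne, Ideal.span_singleton_eq_bot]
      exact hα
    · rw [Ideal.eq_top_iff_one]
      have h1 : α ∈ Ideal.span {α} ⊔ 𝔪 :=
        (le_sup_left : Ideal.span {α} ≤ Ideal.span {α} ⊔ 𝔪) (Ideal.mem_span_singleton_self α)
      have h2 : α - 1 ∈ Ideal.span {α} ⊔ 𝔪 := (le_sup_right : 𝔪 ≤ Ideal.span {α} ⊔ 𝔪) hα1
      have h3 := Ideal.sub_mem _ h1 h2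
      rwa [sub_sub_cancel] at h3

end Pool.Agent.Helper14.PP
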