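import Pool.Agent.Helper94.PP.GoalsA1
import Pool.Agent.Helper51.RS.GFB
import Pool.Agent.Helper79.RS.KEY
import Pool.Agent.Helper17.RS.UNF
import Pool.Agent.Helper24.RS.LSM
import Pool.Agent.Helper69.RS.UNI
import Pool.Agent.Helper4.RS.PAR
import Pool.Agent.Helper3.RS.REP
import Pool.Agent.Helper61.RS.ZET
import Pool.Agent.Helper58.RS.EUL
import Pool.Agent.Helper17.RSP.LBD
import Pool.Agent.Helper58.RSP.EUL

/-!
# Project PP, packet FIX: the prime sum of a fixed nontrivial ray class character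
-/

set_option autoImplicit false

namespace Pool.Agent.Helper14.PP

open NumberField Module IsDedekindDomain
open Pool.Agent.Helper38.RS Pool.Agent.Helper38.RSP
open Pool.Agent.Helper51.PP (RC)

theorem fix_gfb : S_GFB := Pool.Agent.Helper51.RS.s_gfb Pool.Agent.Helper24.RS.s_lsm
  Pool.Agent.Helper69.RS.s_uni

theorem fix_unf : S_UNF := Pool.Agent.Helper17.RS.s_unf fix_gfb Pool.Agent.Helper58.RS.s_eul

theorem fix_par : S_PAR := Pool.Agent.Helper4.RS.s_par Pool.Agent.Helper24.RS.s_lsm fix_gfb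
  (Pool.Agent.Helper79.RS.s_key fix_gfb) fix_unf

theorem fix_zet : S_ZET := Pool.Agent.Helper61.RS.s_zet Pool.Agent.Helper58.RS.s_eul

theorem sp_lbd : SP_LBD := Pool.Agent.Helper17.RSP.sp_lbd fix_unf fix_par
  Pool.Agent.Helper3.RS.s_rep fix_zet

/-- The value at the unit ideal. -/
theorem rc_top {F : Type} [Field F] [NumberField F] {𝔪 : Ideal (𝓞 F)} {χ : Ideal (𝓞 F) → ℂ}
    (h : RC 𝔪 χ) : χ ⊤ = 1 := by
  have h1 : ‖χ ⊤‖ = 1 := h.cop ⊤ top_ne_bot (top_sup_eq 𝔪)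
  have h2 : χ ⊤ ≠ 0 := by
    intro h0
    rw [h0, norm_zero] at h1
    exact zero_ne_one h1
  have h3 := h.mul ⊤ ⊤
  rw [Ideal.mul_top] at h3
  have h4 : χ ⊤ * (χ ⊤ - 1) = 0 := by linear_combination -h3
  rcases mul_eq_zero.1 h4 with h5 | h5
  · exact (h2 h5).elim
  · exact sub_eq_zero.1 h5

theorem rc_le {F : Type} [Field F] [NumberField F] {𝔪 : Ideal (𝓞 F)} {χ : Ideal (𝓞 F) → ℂ}
    (h : RC 𝔪 χ) (I : Ideal (𝓞 F)) : ‖χ I‖ ≤ 1 := by
  by_cases hI : I = ⊥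
  · rw [hI, h.zero, norm_zero]
    exact zero_le_one
  · by_cases hI2 : I ⊔ 𝔪 = ⊤
    · exact (h.cop I hI hI2).le
    · rw [h.ncop I hI hI2, norm_zero]
      exact zero_le_one

theorem goalFIX : Pool.Agent.Helper94.PP.A1_FIX := by
  intro F _ _ _ 𝔪 χ hχ hI
  obtain ⟨I, hI0, hI1, hI2⟩ := hI
  have hch : IsCh 𝔪 χ :=
    { ne := hχ.ne
      zero := hχ.zero
      mul := hχ.mul
      cop := hχ.cop
      ncop := hχ.ncop
      ray := hχ.ray
      nontriv := ⟨I, by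
        intro h0
        have h1 := hχ.cop I hI0 hI1
        rw [h0, norm_zero] at h1
        exact zero_ne_one h1, hI2⟩ }
  obtain ⟨C, hC⟩ := sp_lbd F 𝔪 χ hch
  obtain ⟨C', hC'⟩ := Pool.Agent.Helper58.RSP.sp_eul F
  refine ⟨Real.log C + C', ?_⟩
  intro s hs1 hs2
  obtain ⟨h1, h2⟩ := hC' χ (rc_top hχ) hχ.mul (rc_le hχ) s hs1
  have h3 := (abs_le.1 h2).1
  have h4 : Real.log ‖Lc χ s‖ ≤ Real.log C :=
    Real.log_le_log (norm_pos_iff.2 h1) (hC s hs1 hs2)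
  linarith

end Pool.Agent.Helper14.PP
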