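import Pool.Agent.Helper76.PP.Goals3
import Pool.Agent.Helper79.PP.PVIS
import Pool.Agent.Helper84.RSP.KUM
import Pool.Agent.Helper84.RSP.SPL
import Pool.Agent.Helper59.RS.PSM
import Pool.Agent.Helper58.RS.EUL
import Pool.Agent.Helper61.RS.ZET

/-!
# Project PP, packet BKUM: the field `kum`
-/

set_option autoImplicit false

namespace Pool.Agent.Helper14.PP

open NumberField Polynomial Module IsDedekindDomain
open Pool.Agent.Helper51.RP Pool.Agent.Helper42.RD Pool.Agent.Helper42.PP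
open Pool.Agent.Helper51.SigLeo (IwasawaLog)
open Pool.Agent.Helper38.RS (pz)
open Pool.Agent.Helper76.PP
open Pool.Agent.Helper84.RS (summable_norm)

theorem psmK : Pool.Agent.Helper38.RS.S_PSM :=
  Pool.Agent.Helper59.RS.s_psm Pool.Agent.Helper58.RS.s_eul
    (Pool.Agent.Helper61.RS.s_zet Pool.Agent.Helper58.RS.s_eul)

theorem kumK : Pool.Agent.Helper38.RSP.SP_KUM :=
  Pool.Agent.Helper84.RSP.sp_kum Pool.Agent.Helper84.RSP.sp_spl psmK

section analytic

variable {F : Type} [Field F] [NumberField F]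

theorem norm_one_le (v : HeightOneSpectrum (𝓞 F)) : (1 : ℝ) ≤ (Ideal.absNorm v.asIdeal : ℝ) := by
  have h1 : Ideal.absNorm v.asIdeal ≠ 0 := by
    rw [Ne, Ideal.absNorm_eq_zero_iff]
    exact v.ne_bot
  exact_mod_cast Nat.one_le_iff_ne_zero.2 h1

/-- The primes not above `p` at which `x` is not locally a `p`-th power. -/
theorem lower (p : ℕ) [Fact p.Prime] (ε x : F) (hε : IsPrimitiveRoot ε p) (hx0 : x ≠ 0)
    (hx : ¬ ∃ y : F, y ^ p = x)
    (hZ : {w : HeightOneSpectrum (𝓞 F) | w.valuation F (p : F) ≠ 1}.Finite)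
    (g : HeightOneSpectrum (𝓞 F) → ℝ)
    (hg : ∀ w, w.valuation F (p : F) = 1 → ¬ LocPow p w x → g w = 1) (hg0 : ∀ w, 0 ≤ g w)
    (hg1 : ∀ w, g w ≤ 1) :
    ∃ C : ℝ, ∀ s : ℝ, 1 < s → s ≤ 2 → (1 - 1 / (p : ℝ)) * Real.log (1 / (s - 1)) - C ≤
      ∑' w : HeightOneSpectrum (𝓞 F), g w * (Ideal.absNorm w.asIdeal : ℝ) ^ (-s) := by
  classical
  obtain ⟨C₁, hC₁⟩ := psmK F
  obtain ⟨C₂, hC₂⟩ := kumK p F ε x hε hx0 hx
  refine ⟨C₁ + C₂ + hZ.toFinset.card, ?_⟩
  intro s hs1 hs2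
  have hsum := summable_norm F s hs1
  set f : HeightOneSpectrum (𝓞 F) → ℝ := fun w => (Ideal.absNorm w.asIdeal : ℝ) ^ (-s) with hf
  have hf0 : ∀ w, 0 ≤ f w := fun w => Real.rpow_nonneg (Nat.cast_nonneg _) _
  have hf1 : ∀ w, f w ≤ 1 := fun w =>
    Real.rpow_le_one_of_one_le_of_nonpos (norm_one_le w) (by linarith)
  set A : Set (HeightOneSpectrum (𝓞 F)) :=
    {v : HeightOneSpectrum (𝓞 F) | v.valuation F (p : F) = 1 ∧ LocPow p v x} with hA
  set Z : Set (HeightOneSpectrum (𝓞 F)) :=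
    {w : HeightOneSpectrum (𝓞 F) | w.valuation F (p : F) ≠ 1} with hZd
  have e1 : pz (F := F) Set.univ s = ∑' w, f w := by
    unfold pz
    exact tsum_univ f
  have e2 : pz A s = ∑' w, A.indicator f w := by
    unfold pz
    exact tsum_subtype A f
  have hsA : Summable (A.indicator f) := hsum.indicator A
  have hsZ : Summable (Z.indicator f) := hsum.indicator Z
  have hsg : Summable fun w => g w * f w := by
    refine Summable.of_nonneg_of_le (fun w => mul_nonneg (hg0 w) (hf0 w)) (fun w => ?_) hsum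
    exact mul_le_of_le_one_left (hf0 w) (hg1 w)
  have hZs : ∑' w, Z.indicator f w ≤ hZ.toFinset.card := by
    rw [tsum_eq_sum (s := hZ.toFinset)]
    · calc ∑ w ∈ hZ.toFinset, Z.indicator f w ≤ ∑ _w ∈ hZ.toFinset, (1 : ℝ) := by
            refine Finset.sum_le_sum fun w _ => ?_
            rw [Set.indicator_apply]
            split_ifs
            · exact hf1 w
            · exact zero_le_one
        _ = hZ.toFinset.card := by simp
    · intro w hw
      rw [Set.indicator_of_notMem]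
      intro h
      exact hw (hZ.mem_toFinset.2 h)
  have hle : ∑' w, f w ≤ ∑' w, (g w * f w + A.indicator f w + Z.indicator f w) := by
    refine hsum.tsum_le_tsum (fun w => ?_) ((hsg.add hsA).add hsZ)
    have hA0 : 0 ≤ A.indicator f w := Set.indicator_nonneg (fun w _ => hf0 w) w
    have hZ0 : 0 ≤ Z.indicator f w := Set.indicator_nonneg (fun w _ => hf0 w) w
    have hgf : 0 ≤ g w * f w := mul_nonneg (hg0 w) (hf0 w)
    by_cases h1 : w.valuation F (p : F) = 1
    · by_cases h2 : LocPow p w x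
      · have : A.indicator f w = f w := Set.indicator_of_mem (show w ∈ A from ⟨h1, h2⟩) f
        linarith
      · have : g w * f w = f w := by rw [hg w h1 h2, one_mul]
        linarith
    · have : Z.indicator f w = f w := Set.indicator_of_mem (show w ∈ Z from h1) f
      linarith
  rw [(hsg.add hsA).tsum_add hsZ, hsg.tsum_add hsA, ← e1, ← e2] at hle
  have h1 := (abs_le.1 (hC₁ s hs1 hs2)).1
  have h2 := hC₂ s hs1 hs2
  have h3 : (1 - 1 / (p : ℝ)) * Real.log (1 / (s - 1)) =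
      Real.log (1 / (s - 1)) - 1 / (p : ℝ) * Real.log (1 / (s - 1)) := by ring
  rw [h3]
  linarith

end analytic

theorem b_kum (h1 : Pool.Agent.Helper76.PP.B_KUE) (h2 : Pool.Agent.Helper76.PP.B_TRS)
    (h3 : Pool.Agent.Helper76.PP.B_TRN) (h4 : Pool.Agent.Helper42.PP.P_UPR) :
    Pool.Agent.Helper76.PP.B_KUM := by
  classical
  intro p hpF k _ _ K M K₁ M₁ _ _ _ _ _ _ _ _ _ _ _ _ _ _ _ _ _ _ ε hT m δ ζ Φ P hPi hPhi hδ hfr
    B L T aτ E
  have hp : p.Prime := hpF.out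
  intro x c hc hinj hne T₀
  -- the set of the primes of the support
  set D : Finset (HeightOneSpectrum (𝓞 K)) := c.support.image (fun q => q.1.1) with hD
  set c₀ : HeightOneSpectrum (𝓞 K) → AdjoinRoot P := fun v =>
    if h : ∃ q ∈ c.support, q.1.1 = v then c h.choose else 0 with hc₀
  have hc₀q : ∀ q ∈ c.support, c₀ q.1.1 = c q := by
    intro q hq
    have h : ∃ q' ∈ c.support, q'.1.1 = q.1.1 := ⟨q, hq, rfl⟩
    rw [hc₀]
    simp only
    rw [dif_pos h]
    congr 1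
    exact hinj h.choose_spec.1 hq h.choose_spec.2
  have hsum : ∀ v : HeightOneSpectrum (𝓞 K),
      ∑ q ∈ D, c₀ q * B.A v q = ∑ q' ∈ c.support, c q' * B.A v q'.1.1 := by
    intro v
    rw [hD, Finset.sum_image (g := fun q : B.LP => q.1.1) (fun a ha b hb h => hinj ha hb h)]
    exact Finset.sum_congr rfl fun q hq => by rw [hc₀q q hq]
  have hDV : ∀ q ∈ D, q ∈ B.Vis ∧ c₀ q ≠ 0 := by
    intro v hv
    rw [hD, Finset.mem_image] at hv
    obtain ⟨q, hq, rfl⟩ := hv
    refine ⟨hc q (Finsupp.mem_support_iff.1 hq), ?_⟩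
    rw [hc₀q q hq]
    exact Finsupp.mem_support_iff.1 hq
  have hDne : D.Nonempty ∨ x ≠ 0 := by
    by_cases hx : x = 0
    · left
      have hc0 : c ≠ 0 := fun h => hne ⟨hx, h⟩
      rw [hD, Finset.image_nonempty]
      exact Finsupp.support_nonempty_iff.2 hc0
    · exact Or.inr hx
  obtain ⟨X₀, hX₀, hloc⟩ := h1 p k K M K₁ M₁ ε hT m δ ζ Φ P hPhi hδ hfr B x D c₀ hDV hDne
  set Xm : M₁ := algebraMap M M₁ (X₀ : M) with hXm
  have hXm0 : Xm ≠ 0 := (map_ne_zero (algebraMap M M₁)).2 X₀.ne_zero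
  -- the set of the primes with nonzero symbol
  set V : Set (HeightOneSpectrum (𝓞 K)) :=
    {v | v ∈ B.Vis ∧ v ∉ D ∧ ∑ i, x i * B.R v (B.u i) + ∑ q ∈ D, c₀ q * B.A v q ≠ 0} with hV
  obtain ⟨hup1, -, hup3, -⟩ := h4 p K M₁ B.S
  have hval : ∀ w : HeightOneSpectrum (𝓞 M₁), w.valuation M₁ (p : M₁) ≤ 1 := by
    intro w
    have h := w.valuation_le_one (K := M₁) (p : 𝓞 M₁)
    simpa using h
  have hZ : {w : HeightOneSpectrum (𝓞 M₁) | w.valuation M₁ (p : M₁) ≠ 1}.Finite := by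
    refine hup1.subset ?_
    intro w hw
    exact hup3 B.abp w (lt_of_le_of_ne (hval w) hw)
  set g : HeightOneSpectrum (𝓞 M₁) → ℝ := fun w =>
    if w.valuation M₁ (p : M₁) = 1 ∧ ¬ LocPow p w Xm then 1 else 0 with hg
  have hg0 : ∀ w, 0 ≤ g w := by
    intro w
    rw [hg]
    simp only
    split_ifs
    · exact zero_le_one
    · exact le_rfl
  have hg1 : ∀ w, g w ≤ 1 := by
    intro w
    rw [hg]
    simp only
    split_ifs
    · exact le_rfl
    · exact zero_le_one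
  obtain ⟨C₁, hC₁⟩ := lower p (algebraMap K₁ M₁ ε) Xm
    (hT.prim.map_of_injective (algebraMap K₁ M₁).injective) hXm0 hX₀ hZ g
    (fun w hw1 hw2 => by
      rw [hg]
      exact if_pos ⟨hw1, hw2⟩) hg0 hg1
  obtain ⟨C₂, hC₂⟩ := h2 K M₁ B.S B.unr
  obtain ⟨C₃, hC₃⟩ := h3 K
  have hC₂' := hC₂ D V g (fun w => ⟨hg0 w, (hg1 w).trans one_le_two⟩) (by
    intro W v hWv hWf hvS hvD hvV
    rw [hg]
    refine if_neg ?_
    rintro ⟨-, hW⟩
    apply hW
    have hvis : v ∈ B.Vis := ⟨hvS, W, hWv, hWf⟩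
    refine hloc v hvis hvD ?_ W hWv hWf
    by_contra h0
    exact hvV ⟨hvis, hvD, h0⟩)
  -- the constants
  set d : ℝ := (finrank K M₁ : ℝ) with hd
  have hfd : FiniteDimensional K M₁ := Module.Finite.of_restrictScalars_finite ℚ K M₁
  have hd0 : 0 < d := by
    rw [hd]
    exact_mod_cast finrank_pos (R := K) (M := M₁)
  set σD : ℝ := ∑ v ∈ D, (1 : ℝ) / Ideal.absNorm v.asIdeal with hσD
  have hp2 : (2 : ℝ) ≤ p := by exact_mod_cast hp.two_le
  have hpp : 0 < 1 - 1 / (p : ℝ) := by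
    have : 1 / (p : ℝ) ≤ 1 / 2 := one_div_le_one_div_of_le two_pos hp2
    linarith
  have hlog : 0 < Real.log 2 := Real.log_pos (by norm_num)
  have hlog2 : 1 / 2 < Real.log 2 := by
    have := Real.log_two_gt_d9
    linarith
  -- the lower bound tends to infinity
  have htend : Filter.Tendsto (fun n : ℕ => (1 - 1 / (p : ℝ)) * Real.log (n * Real.log 2))
      Filter.atTop Filter.atTop := by
    refine Filter.Tendsto.const_mul_atTop hpp ?_
    refine Real.tendsto_log_atTop.comp ?_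
    exact (tendsto_natCast_atTop_atTop (R := ℝ)).atTop_mul_const hlog
  obtain ⟨n, hn2, hn⟩ := ((Filter.eventually_ge_atTop 2).and
    (htend.eventually_ge_atTop (2 * d * (T₀ + C₃) + 2 * d * σD + C₂ + C₁))).exists
  refine ⟨n, ?_⟩
  have hn2r : (2 : ℝ) ≤ n := by exact_mod_cast hn2
  have hnl : 1 < n * Real.log 2 := by nlinarith
  set s : ℝ := 1 + 1 / (n * Real.log 2) with hs
  have hs1 : 1 < s := by
    rw [hs]
    have : 0 < 1 / (n * Real.log 2) := one_div_pos.2 (by linarith)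
    linarith
  have hs2 : s ≤ 2 := by
    rw [hs]
    have : 1 / (n * Real.log 2) ≤ 1 := by
      rw [div_le_one (by linarith)]
      exact hnl.le
    linarith
  have hs3 : 1 / (s - 1) = n * Real.log 2 := by
    rw [hs, add_sub_cancel_left, one_div_one_div]
  have e1 := hC₁ s hs1 hs2
  have e2 := hC₂' s hs1 hs2
  rw [hs3] at e1
  have hAfin : {v : HeightOneSpectrum (𝓞 K) | v ∈ V ∧ Ideal.absNorm v.asIdeal < 2 ^ n}.Finite := by
    have h : {v : HeightOneSpectrum (𝓞 K) | Ideal.absNorm v.asIdeal ≤ 2 ^ n}.Finite := by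
      refine Set.Finite.of_finite_image (f := HeightOneSpectrum.asIdeal) ?_ ?_
      · refine (Ideal.finite_setOfPred_absNorm_le (S := 𝓞 K) (2 ^ n)).subset ?_
        rintro _ ⟨v, hv, rfl⟩
        exact hv
      · intro v _ w _ h
        exact HeightOneSpectrum.ext h
    exact h.subset fun v hv => hv.2.le
  set A : Finset (HeightOneSpectrum (𝓞 K)) := hAfin.toFinset with hA
  have hAm : ∀ v, v ∈ A ↔ v ∈ V ∧ Ideal.absNorm v.asIdeal < 2 ^ n := by
    intro v
    rw [hA, Set.Finite.mem_toFinset]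
    rfl
  have e3 := hC₃ V n A hn2 hAm
  rw [← hs] at e3
  have hTA : T₀ ≤ ∑ v ∈ A, (1 : ℝ) / Ideal.absNorm v.asIdeal := by
    have h5 : 2 * d * (T₀ + C₃) ≤ 2 * d * pz V s := by linarith
    have h6 : T₀ + C₃ ≤ pz V s := le_of_mul_le_mul_left h5 (by linarith)
    linarith
  refine hTA.trans ?_
  -- comparison of the sums
  have hVc : ∀ v ∈ A, v ∈ B.calP := by
    intro v hv
    obtain ⟨⟨hvis, -, -⟩, -⟩ := (hAm v).1 hv
    obtain ⟨hvS, W, hWv, hWf⟩ := hvis
    have hv1 : v.valuation K (p : K) = 1 := by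
      have h := v.valuation_le_one (K := K) (p : 𝓞 K)
      have h' : v.valuation K (p : K) ≤ 1 := by simpa using h
      rcases h'.lt_or_eq with h6 | h6
      · exact (hvS (B.abp v h6)).elim
      · exact h6
    have h6 := (Pool.Agent.Helper79.PP.p_vis p K M K₁ M₁ ε hT v hv1).1 W hWv hWf
    have hWQ : Above W (Pool.Agent.Helper40.RS.bel K₁ W) := rfl
    have h7 := h6.2.2 _ hWQ
    exact ⟨hvS, _, h7.2.2, h7.1⟩
  set q₀ : {v // v ∈ A} → B.LP := fun v => ⟨(v.1, 1), hVc v.1 v.2⟩ with hq₀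
  have hq₀i : Function.Injective q₀ := by
    intro v v' h
    apply Subtype.ext
    have h6 := congrArg (fun q : B.LP => q.1.1) h
    exact h6
  have hAs : ∑ v ∈ A, (1 : ℝ) / Ideal.absNorm v.asIdeal =
      ∑ q ∈ A.attach.image q₀, (1 : ℝ) / ((B.sys E).N q : ℝ) := by
    rw [← Finset.sum_attach A, Finset.sum_image (g := q₀) (fun v _ v' _ h => hq₀i h)]
    rfl
  rw [hAs]
  refine Finset.sum_le_sum_of_subset_of_nonneg ?_ (fun q _ _ => by positivity)
  intro q hq
  rw [Finset.mem_image] at hq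
  obtain ⟨v, -, rfl⟩ := hq
  obtain ⟨⟨hvis, hvD, hvne⟩, hvn⟩ := (hAm v.1).1 v.2
  have hN : (B.sys E).N (q₀ v) = Ideal.absNorm v.1.asIdeal := rfl
  rw [Finset.mem_filter]
  refine ⟨?_, hvis, ?_, ?_⟩
  · unfold Pool.Agent.Helper17.PP.Sys.below Pool.Agent.Helper17.PP.Sys.bl
    rw [Finset.mem_filter, Set.Finite.mem_toFinset]
    refine ⟨?_, ?_⟩
    · show (B.sys E).N (q₀ v) ≤ 2 ^ n
      rw [hN]
      exact hvn.le
    · rw [hN]
      refine Nat.log_lt_of_lt_pow ?_ hvn
      rw [Ne, Ideal.absNorm_eq_zero_iff]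
      exact v.1.ne_bot
  · intro q' hq' h
    apply hvD
    rw [hD, Finset.mem_image]
    exact ⟨q', hq', h⟩
  · intro h0
    apply hvne
    rw [hsum, ← h0]
    congr 1
    show _ = (∑ i, (LinearMap.proj i).smulRight (B.R v.1 (B.u i))) x
    rw [LinearMap.sum_apply]
    rfl

end Pool.Agent.Helper14.PP
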