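import Pool.Agent.Helper11.PP.GoalsD
import Pool.Agent.Helper8.LE.ADD
import Mathlib.FieldTheory.Galois.Infinite

/-!
# Project PP, packet DNIC: split at `p` implies `a ≡ 1 mod p³` up to a `p`-th power
-/

set_option autoImplicit false

namespace Pool.Agent.Helper14.PP

open NumberField Polynomial Module IsDedekindDomain Pool.Agent.Helper51.RP Pool.Agent.Helper42.RD
open Pool.Agent.Helper11.LE Pool.Agent.Helper11.PP
open Pool.Agent.Helper40.RS (bel gw gw_inj efg bel_smul lies)
open Pool.Agent.Helper8.LE (free_val free_res)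
open scoped Pointwise

section approx

variable {F : Type} [Field F] [NumberField F]

/-- The valuation of a nonzero integer. -/
theorem val_int (w : HeightOneSpectrum (𝓞 F)) {D : 𝓞 F} (hD : D ≠ 0) :
    ∃ m : ℕ, w.valuation F (D : F) = WithZero.exp (-(m : ℤ)) := by
  refine ⟨(Associates.mk w.asIdeal).count (Associates.mk (Ideal.span {D})).factors, ?_⟩
  show w.valuation F (algebraMap (𝓞 F) F D) = _
  rw [HeightOneSpectrum.valuation_of_algebraMap, HeightOneSpectrum.intValuation_if_neg _ hD]

theorem val_le_exp_iff (w : HeightOneSpectrum (𝓞 F)) (D : 𝓞 F) (m : ℕ) :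
    w.valuation F (D : F) ≤ WithZero.exp (-(m : ℤ)) ↔ D ∈ w.asIdeal ^ m := by
  show w.valuation F (algebraMap (𝓞 F) F D) ≤ _ ↔ _
  rw [HeightOneSpectrum.valuation_of_algebraMap]
  exact HeightOneSpectrum.intValuation_le_pow_iff_mem w D m

/-- The strong approximation theorem. -/
theorem strong (S : Finset (HeightOneSpectrum (𝓞 F))) (x : HeightOneSpectrum (𝓞 F) → F) (n : ℕ) :
    ∃ y : F, (∀ w ∈ S, w.valuation F (y - x w) ≤ WithZero.exp (-(n : ℤ))) ∧
      ∀ w, w ∉ S → w.valuation F y ≤ 1 := by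
  classical
  obtain ⟨⟨D, hD⟩, hDu⟩ := IsLocalization.exist_integer_multiples_of_finset
    (nonZeroDivisors (𝓞 F)) (S.image x)
  have hD0 : D ≠ 0 := nonZeroDivisors.ne_zero hD
  have hu : ∀ w ∈ S, ∃ u : 𝓞 F, (u : F) = (D : F) * x w := by
    intro w hw
    obtain ⟨u, hu⟩ := hDu (x w) (Finset.mem_image_of_mem x hw)
    exact ⟨u, by rw [← Algebra.smul_def]; exact hu⟩
  have hu' : ∀ w, ∃ u : 𝓞 F, (w ∈ S → (u : F) = (D : F) * x w) ∧ (w ∉ S → u = 0) := by
    intro w
    by_cases hw : w ∈ S
    · obtain ⟨u, hu⟩ := hu w hw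
      exact ⟨u, fun _ => hu, fun h => (h hw).elim⟩
    · exact ⟨0, fun h => (hw h).elim, fun _ => rfl⟩
  choose u hu1 hu2 using hu'
  choose m hm using fun w : HeightOneSpectrum (𝓞 F) => val_int w hD0
  have hTf : {w : HeightOneSpectrum (𝓞 F) | D ∈ w.asIdeal}.Finite := by
    have h1 := Ideal.finite_factors (I := Ideal.span {D}) (by
      simpa using hD0)
    refine h1.subset ?_
    intro w hw
    exact (Ideal.dvd_span_singleton).2 hw
  set T : Finset (HeightOneSpectrum (𝓞 F)) := hTf.toFinset with hT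
  obtain ⟨y, hy⟩ := IsDedekindDomain.exists_forall_sub_mem_ideal (s := S ∪ T)
    (fun w : HeightOneSpectrum (𝓞 F) => w.asIdeal) (fun w => n + m w)
    (fun w _ => w.prime)
    (fun w _ w' _ hne h => hne (HeightOneSpectrum.ext h)) (fun w => u w.1)
  refine ⟨(y : F) / D, ?_, ?_⟩
  · intro w hw
    have h1 := hy w (Finset.mem_union_left _ hw)
    rw [← val_le_exp_iff] at h1
    have hDF : (D : F) ≠ 0 := by simpa using hD0
    have e : (y : F) / D - x w = ((y - u w : 𝓞 F) : F) / D := by
      rw [RingOfIntegers.coe_eq_algebraMap, RingOfIntegers.coe_eq_algebraMap,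
        RingOfIntegers.coe_eq_algebraMap, map_sub, ← RingOfIntegers.coe_eq_algebraMap (u w),
        hu1 w hw, RingOfIntegers.coe_eq_algebraMap]
      rw [RingOfIntegers.coe_eq_algebraMap] at hDF
      field_simp
    rw [e, map_div₀, hm w]
    rw [div_le_iff₀ (by exact WithZero.exp_pos)]
    refine h1.trans (le_of_eq ?_)
    rw [← WithZero.exp_add]
    congr 1
    push_cast
    ring
  · intro w hw
    rw [map_div₀, hm w, div_le_iff₀ (by exact WithZero.exp_pos), one_mul]
    by_cases hwT : w ∈ T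
    · have h1 := hy w (Finset.mem_union_right _ hwT)
      rw [hu2 w hw, sub_zero, ← val_le_exp_iff] at h1
      refine h1.trans ?_
      rw [WithZero.exp_le_exp]
      push_cast
      linarith [Int.natCast_nonneg n]
    · have h2 : w.valuation F (D : F) = 1 := by
        have h3 : D ∉ w.asIdeal := by
          intro h
          apply hwT
          rw [hT, Set.Finite.mem_toFinset]
          exact h
        exact val_of_notMem w h3
      rw [← hm w, h2]
      exact w.valuation_le_one y

/-- The elements close to `1` form a group. -/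
theorem near_mul (w : HeightOneSpectrum (𝓞 F)) {x y : F} {n : ℕ}
    (hx : w.valuation F (x - 1) ≤ WithZero.exp (-(n : ℤ)))
    (hy : w.valuation F (y - 1) ≤ WithZero.exp (-(n : ℤ))) :
    w.valuation F (x * y - 1) ≤ WithZero.exp (-(n : ℤ)) := by
  have h1 : WithZero.exp (-(n : ℤ)) ≤ 1 := by
    rw [← WithZero.exp_zero, WithZero.exp_le_exp]
    linarith [Int.natCast_nonneg n]
  have hy1 : w.valuation F y ≤ 1 := by
    have e : y = (y - 1) + 1 := by ring
    rw [e]
    refine Valuation.map_add_le _ (hy.trans h1) ?_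
    rw [map_one]
  have e : x * y - 1 = (x - 1) * y + (y - 1) := by ring
  rw [e]
  refine Valuation.map_add_le _ ?_ hy
  rw [map_mul]
  exact (mul_le_of_le_one_right' hy1).trans hx

theorem near_pow (w : HeightOneSpectrum (𝓞 F)) {x : F} {n : ℕ}
    (hx : w.valuation F (x - 1) ≤ WithZero.exp (-(n : ℤ))) (k : ℕ) :
    w.valuation F (x ^ k - 1) ≤ WithZero.exp (-(n : ℤ)) := by
  induction k with
  | zero => rw [pow_zero, sub_self, map_zero]; exact zero_le
  | succ k ih => rw [pow_succ]; exact near_mul w ih hx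

theorem near_val (w : HeightOneSpectrum (𝓞 F)) {x : F} {n : ℕ} (hn : 0 < n)
    (hx : w.valuation F (x - 1) ≤ WithZero.exp (-(n : ℤ))) : w.valuation F x = 1 := by
  apply val_eq_one_of_sub
  refine hx.trans_lt ?_
  rw [← WithZero.exp_zero, WithZero.exp_lt_exp]
  have : (0 : ℤ) < n := by exact_mod_cast hn
  linarith

theorem exists_p (p : ℕ) [hpF : Fact p.Prime] :
    ∃ w : HeightOneSpectrum (𝓞 F), (p : 𝓞 F) ∈ w.asIdeal := by
  have hp : p.Prime := hpF.out
  have hpR : (p : 𝓞 F) ≠ 0 := Nat.cast_ne_zero.2 hp.ne_zero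
  have hmax : (Ideal.span {(p : ℤ)}).IsMaximal := by
    have h1 : (Ideal.span {(p : ℤ)}).IsPrime := by
      rw [Ideal.span_singleton_prime (by exact_mod_cast hp.ne_zero)]
      exact Nat.prime_iff_prime_int.1 hp
    refine h1.isMaximal ?_
    rw [Ne, Ideal.span_singleton_eq_bot]
    exact_mod_cast hp.ne_zero
  obtain ⟨P, hP, hP2⟩ := Ideal.exists_maximal_ideal_liesOver_of_isIntegral (S := 𝓞 F)
    (Ideal.span {(p : ℤ)})
  have h1 : (p : 𝓞 F) ∈ P := by
    have h2 : (p : ℤ) ∈ P.under ℤ := by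
      rw [← hP2.over]
      exact Ideal.mem_span_singleton_self _
    have h3 : algebraMap ℤ (𝓞 F) (p : ℤ) ∈ P := h2
    simpa using h3
  refine ⟨⟨P, hP.isPrime, ?_⟩, h1⟩
  rintro rfl
  exact hpR h1

/-- The last step: an element which is close to a `p`-th power at all the primes above `p` is, up to a
`p`-th power, an integer congruent to `1` modulo `p³`. -/
theorem nice (p : ℕ) [Fact p.Prime] (a : Fˣ)
    (h : ∀ w : HeightOneSpectrum (𝓞 F), (p : 𝓞 F) ∈ w.asIdeal → ∀ n : ℕ, 0 < n →
      ∃ y : F, y ≠ 0 ∧ w.valuation F ((a : F) * y ^ p - 1) ≤ WithZero.exp (-(n : ℤ))) :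
    NiceU p a := by
  classical
  have hp : p.Prime := Fact.out
  have hpR : (p : 𝓞 F) ≠ 0 := Nat.cast_ne_zero.2 hp.ne_zero
  have hTf : {w : HeightOneSpectrum (𝓞 F) | (p : 𝓞 F) ∈ w.asIdeal}.Finite := by
    have h1 := Ideal.finite_factors (I := Ideal.span {(p : 𝓞 F)}) (by simpa using hpR)
    refine h1.subset ?_
    intro w hw
    exact (Ideal.dvd_span_singleton).2 hw
  set T : Finset (HeightOneSpectrum (𝓞 F)) := hTf.toFinset with hT
  have hTm : ∀ w, w ∈ T ↔ (p : 𝓞 F) ∈ w.asIdeal := by
    intro w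
    rw [hT, Set.Finite.mem_toFinset]
    rfl
  choose m hm using fun w : HeightOneSpectrum (𝓞 F) => val_int w hpR
  set n : ℕ := 3 * T.sup m + 1 with hn
  have hn0 : 0 < n := by omega
  have hnm : ∀ w ∈ T, 3 * m w ≤ n := by
    intro w hw
    have := Finset.le_sup (f := m) hw
    omega
  choose! yw hyw0 hyw using fun (w : HeightOneSpectrum (𝓞 F)) (hw : (p : 𝓞 F) ∈ w.asIdeal) =>
    h w hw n hn0
  -- weak approximation
  have hlog : ∀ w ∈ T, ∃ k : ℕ, WithZero.exp (-(k : ℤ)) ≤ w.valuation F (yw w) := by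
    intro w hw
    have h1 : w.valuation F (yw w) ≠ 0 := (Valuation.ne_zero_iff _).2 (hyw0 w ((hTm w).1 hw))
    refine ⟨(-WithZero.log (w.valuation F (yw w))).toNat, ?_⟩
    conv_rhs => rw [← WithZero.exp_log h1]
    rw [WithZero.exp_le_exp]
    have := Int.self_le_toNat (-WithZero.log (w.valuation F (yw w)))
    linarith
  choose! k hk using hlog
  obtain ⟨y, hy, -⟩ := strong T yw (n + T.sup k)
  have hyn : ∀ w ∈ T, w.valuation F (y / yw w - 1) ≤ WithZero.exp (-(n : ℤ)) := by
    intro w hw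
    have h0 := hyw0 w ((hTm w).1 hw)
    have e : y / yw w - 1 = (y - yw w) / yw w := by field_simp
    rw [e, map_div₀]
    have h1 : 0 < w.valuation F (yw w) := zero_lt_iff.2 ((Valuation.ne_zero_iff _).2 h0)
    rw [div_le_iff₀ h1]
    refine (hy w hw).trans ?_
    have h2 : WithZero.exp (-((T.sup k : ℕ) : ℤ)) ≤ w.valuation F (yw w) := by
      refine le_trans ?_ (hk w hw)
      rw [WithZero.exp_le_exp]
      have := Finset.le_sup (f := k) hw
      have h3 : (k w : ℤ) ≤ ((T.sup k : ℕ) : ℤ) := by exact_mod_cast this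
      linarith
    have h3 : WithZero.exp (-((n + T.sup k : ℕ) : ℤ)) =
        WithZero.exp (-(n : ℤ)) * WithZero.exp (-((T.sup k : ℕ) : ℤ)) := by
      rw [← WithZero.exp_add]
      congr 1
      push_cast
      ring
    rw [h3]
    exact mul_le_mul_right h2 _
  obtain ⟨w₀, hw₀⟩ := exists_p (F := F) p
  have hy0 : y ≠ 0 := by
    rintro rfl
    have h1 := near_val w₀ hn0 (hyn w₀ ((hTm w₀).2 hw₀))
    rw [zero_div, map_zero] at h1
    exact zero_ne_one h1
  set b₀ : F := (a : F) * y ^ p with hb₀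
  have hb₀0 : b₀ ≠ 0 := mul_ne_zero a.ne_zero (pow_ne_zero _ hy0)
  have hb₀n : ∀ w ∈ T, w.valuation F (b₀ - 1) ≤ WithZero.exp (-(n : ℤ)) := by
    intro w hw
    have h1 := near_mul w (hyw w ((hTm w).1 hw)) (near_pow w (hyn w hw) p)
    have e : (a : F) * yw w ^ p * (y / yw w) ^ p = b₀ := by
      have h0 := hyw0 w ((hTm w).1 hw)
      rw [hb₀, div_pow]
      field_simp
    rwa [e] at h1
  -- denominators
  have hS'f : {w : HeightOneSpectrum (𝓞 F) | 1 < w.valuation F b₀}.Finite :=
    HeightOneSpectrum.Support.finite (𝓞 F) b₀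
  set S' : Finset (HeightOneSpectrum (𝓞 F)) := hS'f.toFinset with hS'
  have hS'm : ∀ w, w ∈ S' ↔ 1 < w.valuation F b₀ := by
    intro w
    rw [hS', Set.Finite.mem_toFinset]
    rfl
  obtain ⟨d, hd, hd'⟩ := strong (T ∪ S') (fun w => if w ∈ T then 1 else 0)
    (n + S'.sup fun w => (WithZero.log (w.valuation F b₀)).toNat)
  set l : ℕ := S'.sup fun w => (WithZero.log (w.valuation F b₀)).toNat with hl
  have hdT : ∀ w ∈ T, w.valuation F (d - 1) ≤ WithZero.exp (-(n : ℤ)) := by
    intro w hw
    have h1 := hd w (Finset.mem_union_left _ hw)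
    rw [if_pos hw] at h1
    refine h1.trans ?_
    rw [WithZero.exp_le_exp]
    push_cast
    linarith [Int.natCast_nonneg l]
  have hd0 : d ≠ 0 := by
    rintro rfl
    have h1 := near_val w₀ hn0 (hdT w₀ ((hTm w₀).2 hw₀))
    rw [map_zero] at h1
    exact zero_ne_one h1
  have hint : ∀ w : HeightOneSpectrum (𝓞 F), w.valuation F (b₀ * d ^ p) ≤ 1 := by
    intro w
    rw [map_mul, map_pow]
    by_cases hwT : w ∈ T
    · rw [near_val w hn0 (hb₀n w hwT), near_val w hn0 (hdT w hwT), one_pow, one_mul]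
    · by_cases hwS : w ∈ S'
      · have h1 := hd w (Finset.mem_union_right _ hwS)
        rw [if_neg hwT, sub_zero] at h1
        have hv0 : w.valuation F b₀ ≠ 0 := (Valuation.ne_zero_iff _).2 hb₀0
        have h2 : w.valuation F d ≤ 1 := by
          refine h1.trans ?_
          rw [← WithZero.exp_zero, WithZero.exp_le_exp]
          push_cast
          linarith [Int.natCast_nonneg l, Int.natCast_nonneg n]
        have h3 : w.valuation F d ^ p ≤ w.valuation F d :=
          pow_le_of_le_one zero_le h2 hp.ne_zero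
        have h4 : w.valuation F b₀ ≤ WithZero.exp (l : ℤ) := by
          conv_lhs => rw [← WithZero.exp_log hv0]
          rw [WithZero.exp_le_exp]
          have h5 := Finset.le_sup (f := fun w : HeightOneSpectrum (𝓞 F) =>
            (WithZero.log (w.valuation F b₀)).toNat) hwS
          have h6 : ((WithZero.log (w.valuation F b₀)).toNat : ℤ) ≤ (l : ℤ) := by
            exact_mod_cast h5
          exact (Int.self_le_toNat _).trans h6
        calc w.valuation F b₀ * w.valuation F d ^ p ≤
            WithZero.exp (l : ℤ) * WithZero.exp (-((n + l : ℕ) : ℤ)) :=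
              mul_le_mul' h4 (h3.trans h1)
          _ ≤ 1 := by
              rw [← WithZero.exp_add, ← WithZero.exp_zero, WithZero.exp_le_exp]
              push_cast
              linarith [Int.natCast_nonneg n]
      · have h1 : w.valuation F b₀ ≤ 1 := by
          rw [hS'm, not_lt] at hwS
          exact hwS
        have h2 := hd' w (by
          rw [Finset.mem_union, not_or]
          exact ⟨hwT, hwS⟩)
        exact mul_le_one' h1 (pow_le_one₀ zero_le h2)
  obtain ⟨b, hb⟩ := HeightOneSpectrum.mem_integers_of_valuation_le_one F _ hint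
  have hbn : ∀ w ∈ T, w.valuation F ((b : F) - 1) ≤ WithZero.exp (-(n : ℤ)) := by
    intro w hw
    rw [RingOfIntegers.coe_eq_algebraMap, hb]
    exact near_mul w (hb₀n w hw) (near_pow w (hdT w hw) p)
  have hquo : ∀ w : HeightOneSpectrum (𝓞 F),
      w.valuation F (((b : F) - 1) / (p : F) ^ 3) ≤ 1 := by
    intro w
    rw [map_div₀, map_pow]
    have hpm : w.valuation F (p : F) = WithZero.exp (-(m w : ℤ)) := by
      rw [← hm w]
      simp
    have hpos : 0 < w.valuation F (p : F) ^ 3 := by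
      rw [hpm]
      exact pow_pos WithZero.exp_pos 3
    rw [div_le_iff₀ hpos, one_mul]
    by_cases hwT : w ∈ T
    · refine (hbn w hwT).trans ?_
      rw [hpm, ← WithZero.exp_nsmul, WithZero.exp_le_exp]
      have h1 := hnm w hwT
      have h2 : ((3 * m w : ℕ) : ℤ) ≤ (n : ℤ) := by exact_mod_cast h1
      push_cast at h2
      rw [nsmul_eq_mul]
      push_cast
      linarith
    · have h1 : w.valuation F (p : F) = 1 := by
        have h2 : (p : 𝓞 F) ∉ w.asIdeal := by
          rw [← hTm]
          exact hwT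
        have h3 := val_of_notMem w h2
        simpa using h3
      rw [h1, one_pow]
      have h2 : ((b : F) - 1) = ((b - 1 : 𝓞 F) : F) := by simp
      rw [h2]
      exact w.valuation_le_one _
  obtain ⟨c, hc⟩ := HeightOneSpectrum.mem_integers_of_valuation_le_one F _ hquo
  refine ⟨b, Units.mk0 (y * d) (mul_ne_zero hy0 hd0), ⟨c, ?_⟩, ?_⟩
  · apply RingOfIntegers.coe_injective
    have hpF0 : (p : F) ≠ 0 := Nat.cast_ne_zero.2 hp.ne_zero
    rw [← RingOfIntegers.coe_eq_algebraMap] at hc
    have e1 : ((b - 1 : 𝓞 F) : F) = (b : F) - 1 := by simp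
    have e2 : (((p : 𝓞 F) ^ 3 * c : 𝓞 F) : F) = (p : F) ^ 3 * (c : F) := by simp
    show ((b - 1 : 𝓞 F) : F) = (((p : 𝓞 F) ^ 3 * c : 𝓞 F) : F)
    rw [e1, e2, hc]
    field_simp
  · rw [RingOfIntegers.coe_eq_algebraMap, hb, Units.val_mk0, hb₀, mul_pow]
    ring

end approx

/-- If there are `[N : K]` primes of `N` above the prime below `V` then the decomposition group of `V` is
trivial. -/
theorem free_of_split {K N : Type} [Field K] [NumberField K] [Field N] [NumberField N]
    [Algebra K N] [IsGalois K N] (V : HeightOneSpectrum (𝓞 N))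
    (h : {V' : HeightOneSpectrum (𝓞 N) | Ab V' (bel K V)}.ncard = finrank K N) : FreeP K V := by
  have hsub : ∀ g : N ≃ₐ[K] N, Ab (gw g V) (bel K V) := by
    intro g
    have h1 : bel K (gw g V) = bel K V := bel_smul g V (gw g V) rfl
    rw [← h1]
    rfl
  set f : (N ≃ₐ[K] N) → {V' : HeightOneSpectrum (𝓞 N) | Ab V' (bel K V)} :=
    fun g => ⟨gw g V, hsub g⟩ with hf
  have hsurj : Function.Surjective f := by
    rintro ⟨V', hV'⟩
    have h1 : V'.asIdeal.LiesOver (bel K V).asIdeal := ⟨hV'.symm⟩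
    obtain ⟨g, hg⟩ := Ideal.exists_smul_eq_of_isGaloisGroup (bel K V).asIdeal V.asIdeal V'.asIdeal
      (N ≃ₐ[K] N)
    refine ⟨g, Subtype.ext (HeightOneSpectrum.ext ?_)⟩
    exact hg
  have hfd : FiniteDimensional K N := Module.Finite.of_restrictScalars_finite ℚ K N
  have hcard : Nat.card (N ≃ₐ[K] N) ≤
      Nat.card {V' : HeightOneSpectrum (𝓞 N) | Ab V' (bel K V)} := by
    rw [IsGalois.card_aut_eq_finrank, Nat.card_coe_set_eq, h]
  have hbij := hsurj.bijective_of_nat_card_le hcard
  intro g hg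
  apply hbij.injective
  apply Subtype.ext
  apply HeightOneSpectrum.ext
  show g • V.asIdeal = (1 : N ≃ₐ[K] N) • V.asIdeal
  have hmem : ∀ x : 𝓞 N, g • x ∈ V.asIdeal ↔ x ∈ V.asIdeal := by
    intro x
    rw [← HeightOneSpectrum.valuation_lt_one_iff_mem (K := N) V x,
      ← HeightOneSpectrum.valuation_lt_one_iff_mem (K := N) V (g • x)]
    have h1 : V.valuation N ((g • x : 𝓞 N) : N) = V.valuation N (x : N) := hg (x : N)
    rw [h1]
  rw [one_smul]
  apply Ideal.ext
  intro x
  rw [Ideal.mem_pointwise_smul_iff_inv_smul_mem, ← hmem (g⁻¹ • x), smul_inv_smul]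

section core

variable {K K₁ N H : Type} [Field K] [NumberField K] [Field K₁] [NumberField K₁] [Field N]
  [NumberField N] [Field H] [NumberField H] [Algebra K K₁] [Algebra K N] [Algebra K H]
  [Algebra K₁ H] [Algebra N H] [IsScalarTower K K₁ H] [IsScalarTower K N H] [IsGalois K N]
  [IsGalois K₁ H]

omit [NumberField K] [NumberField K₁] [IsGalois K₁ H] in
/-- The decomposition group of a prime of `H = N K₁` above a completely split prime is trivial. -/
theorem free_comp
    (hgen : ∀ g : H ≃ₐ[K] H, (∀ x : K₁, g (algebraMap K₁ H x) = algebraMap K₁ H x) →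
      (∀ y : N, g (algebraMap N H y) = algebraMap N H y) → g = 1)
    (P : HeightOneSpectrum (𝓞 H)) (hV : FreeP K (bel N P)) : FreeP K₁ P := by
  intro g hg
  set g₁ : H ≃ₐ[K] H := g.restrictScalars K with hg₁
  set h : N ≃ₐ[K] N := g₁.restrictNormal N with hh
  have hcom : ∀ y : N, algebraMap N H (h y) = g₁ (algebraMap N H y) :=
    fun y => AlgEquiv.restrictNormal_commutes g₁ N y
  have he : (bel N P).asIdeal.ramificationIdx' P.asIdeal ≠ 0 :=
    Ideal.IsDedekindDomain.ramificationIdx'_ne_zero_of_liesOver P.asIdeal (bel N P).ne_bot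
  have h1 : h = 1 := by
    apply hV
    intro y
    have h2 : P.valuation H (algebraMap N H (h y)) = P.valuation H (algebraMap N H y) := by
      rw [hcom]
      exact hg _
    rw [← HeightOneSpectrum.valuation_liesOver H (bel N P) P,
      ← HeightOneSpectrum.valuation_liesOver H (bel N P) P] at h2
    exact (pow_left_inj₀ zero_le zero_le he).1 h2
  have h2 : g₁ = 1 := by
    apply hgen
    · intro x
      exact g.commutes x
    · intro y
      rw [← hcom, h1]
      rfl
  ext x
  have h3 := congrArg (fun f : H ≃ₐ[K] H => f x) h2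
  exact h3

/-- Approximation by elements of `K₁`. -/
theorem approx_n (P : HeightOneSpectrum (𝓞 H)) (hf : FreeP K₁ P) (n : ℕ) (z : H)
    (hz : P.valuation H z ≤ 1) :
    ∃ c : K₁, P.valuation H (z - algebraMap K₁ H c) ≤ WithZero.exp (-(n : ℤ)) := by
  induction n with
  | zero =>
    refine ⟨0, ?_⟩
    rw [map_zero, sub_zero]
    simpa using hz
  | succ n ih =>
    obtain ⟨c, hc⟩ := ih
    obtain ⟨π, hπ⟩ := (bel K₁ P).valuation_exists_uniformizer K₁
    have hπH : P.valuation H (algebraMap K₁ H π) = WithZero.exp (-1 : ℤ) := by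
      rw [free_val P hf, hπ]
    set q : H := algebraMap K₁ H π ^ n with hq
    have hvq : P.valuation H q = WithZero.exp (-(n : ℤ)) := by
      rw [hq, map_pow, hπH, ← WithZero.exp_nsmul]
      congr 1
      rw [nsmul_eq_mul]
      ring
    have hq0 : q ≠ 0 := by
      intro h
      rw [h, map_zero] at hvq
      exact WithZero.exp_ne_zero hvq.symm
    have hz1 : P.valuation H ((z - algebraMap K₁ H c) / q) ≤ 1 := by
      rw [map_div₀, hvq, div_le_iff₀ (by exact WithZero.exp_pos), one_mul]
      exact hc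
    obtain ⟨z₂, hz₂⟩ := HeightOneSpectrum.exists_valuation_sub_lt_of_integer P hz1 1
    rw [Units.val_one] at hz₂
    obtain ⟨x, hx⟩ := free_res P hf z₂
    have hx1 : P.valuation H (algebraMap (𝓞 H) H (z₂ - algebraMap (𝓞 K₁) (𝓞 H) x)) < 1 :=
      (HeightOneSpectrum.valuation_lt_one_iff_mem (K := H) P _).2 hx
    have e1 : algebraMap (𝓞 H) H (algebraMap (𝓞 K₁) (𝓞 H) x) =
        algebraMap K₁ H (algebraMap (𝓞 K₁) K₁ x) := by
      rw [← IsScalarTower.algebraMap_apply, ← IsScalarTower.algebraMap_apply]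
    rw [map_sub, e1] at hx1
    have hlt : P.valuation H ((z - algebraMap K₁ H c) / q -
        algebraMap K₁ H (algebraMap (𝓞 K₁) K₁ x)) < 1 := by
      have e2 : (z - algebraMap K₁ H c) / q - algebraMap K₁ H (algebraMap (𝓞 K₁) K₁ x) =
          (algebraMap (𝓞 H) H z₂ - algebraMap K₁ H (algebraMap (𝓞 K₁) K₁ x)) -
            (algebraMap (𝓞 H) H z₂ - (z - algebraMap K₁ H c) / q) := by ring
      rw [e2]
      exact Valuation.map_sub_lt _ hx1 hz₂
    refine ⟨c + π ^ n * algebraMap (𝓞 K₁) K₁ x, ?_⟩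
    have e3 : z - algebraMap K₁ H (c + π ^ n * algebraMap (𝓞 K₁) K₁ x) =
        ((z - algebraMap K₁ H c) / q - algebraMap K₁ H (algebraMap (𝓞 K₁) K₁ x)) * q := by
      rw [map_add, map_mul, map_pow, ← hq]
      field_simp
      ring
    rw [e3, map_mul, hvq]
    have h4 : P.valuation H ((z - algebraMap K₁ H c) / q -
        algebraMap K₁ H (algebraMap (𝓞 K₁) K₁ x)) ≤ WithZero.exp (-1 : ℤ) := by
      rcases eq_or_ne (P.valuation H ((z - algebraMap K₁ H c) / q -
        algebraMap K₁ H (algebraMap (𝓞 K₁) K₁ x))) 0 with h0 | h0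
      · rw [h0]
        exact zero_le
      · rw [← WithZero.log_le_iff_le_exp h0]
        rw [← WithZero.exp_zero, ← WithZero.log_lt_iff_lt_exp h0] at hlt
        omega
    calc _ ≤ WithZero.exp (-1 : ℤ) * WithZero.exp (-(n : ℤ)) := mul_le_mul_left h4 _
      _ = WithZero.exp (-((n + 1 : ℕ) : ℤ)) := by
          rw [← WithZero.exp_add]
          congr 1
          push_cast
          ring

/-- The local statement at the prime of `K₁` below `P`. -/
theorem local_root (P : HeightOneSpectrum (𝓞 H)) (hf : FreeP K₁ P) (p : ℕ) (s : H) (a : K₁)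
    (ha : a ≠ 0) (hp : p ≠ 0) (hs : s ^ p = algebraMap K₁ H a) (n : ℕ) (hn : 0 < n) :
    ∃ y : K₁, y ≠ 0 ∧ (bel K₁ P).valuation K₁ (a * y ^ p - 1) ≤ WithZero.exp (-(n : ℤ)) := by
  have hs0 : s ≠ 0 := by
    rintro rfl
    rw [zero_pow hp] at hs
    exact ha ((map_eq_zero (algebraMap K₁ H)).1 hs.symm)
  obtain ⟨t, ht⟩ := HeightOneSpectrum.valuation_surjective (K := K₁) (bel K₁ P)
    (P.valuation H s)
  have hvs : P.valuation H s ≠ 0 := (Valuation.ne_zero_iff _).2 hs0
  have ht0 : t ≠ 0 := by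
    rintro rfl
    rw [map_zero] at ht
    exact hvs ht.symm
  have htH0 : algebraMap K₁ H t ≠ 0 := (map_ne_zero (algebraMap K₁ H)).2 ht0
  have htH : P.valuation H (algebraMap K₁ H t) = P.valuation H s := by
    rw [free_val P hf, ht]
  have h1 : P.valuation H (algebraMap K₁ H t / s) = 1 := by
    rw [map_div₀, htH, div_self hvs]
  obtain ⟨c, hc⟩ := approx_n P hf n _ h1.le
  have h2 : P.valuation H (s * algebraMap K₁ H (c / t) - 1) ≤ WithZero.exp (-(n : ℤ)) := by
    have e : s * algebraMap K₁ H (c / t) - 1 =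
        -((algebraMap K₁ H t / s - algebraMap K₁ H c) * (s / algebraMap K₁ H t)) := by
      rw [map_div₀]
      field_simp
      ring
    rw [e, Valuation.map_neg, map_mul, map_div₀, htH, div_self hvs, mul_one]
    exact hc
  have h3 := near_pow P h2 p
  have e : (s * algebraMap K₁ H (c / t)) ^ p - 1 = algebraMap K₁ H (a * (c / t) ^ p - 1) := by
    rw [mul_pow, hs, map_sub, map_mul, map_pow, map_one]
  rw [e, free_val P hf] at h3
  refine ⟨c / t, ?_, h3⟩
  intro h0
  have h4 := near_val (bel K₁ P) hn h3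
  rw [h0, zero_pow hp, mul_zero, map_zero] at h4
  exact zero_ne_one h4

end core

theorem d_nic : Pool.Agent.Helper11.PP.D_NIC := by
  intro p hpF K K₁ _ _ _ _ _ ε hC j hj N hN a ha hgen
  have hp : p.Prime := hpF.out
  obtain ⟨hNp, hNg, hNs⟩ := hN
  have hNfd : FiniteDimensional K N := by
    apply Module.finite_of_finrank_pos
    rw [hNp]
    exact hp.pos
  have hfd : FiniteDimensional K K₁ := Module.Finite.of_restrictScalars_finite ℚ K K₁
  have hK₁g : IsGalois K K₁ := hC.gal
  let jA : K₁ →ₐ[K] AlgebraicClosure K := { j with commutes' := hj }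
  have hjA : ∀ x, jA x = j x := fun _ => rfl
  set K₁' : IntermediateField K (AlgebraicClosure K) := jA.fieldRange with hK₁'
  have hjm : ∀ x, j x ∈ K₁' := fun x => ⟨x, rfl⟩
  have hK₁'fd : FiniteDimensional K K₁' :=
    (AlgEquiv.ofInjectiveField jA).toLinearEquiv.finiteDimensional
  have hK₁'g : IsGalois K K₁' := IsGalois.of_algEquiv (AlgEquiv.ofInjectiveField jA)
  set H : IntermediateField K (AlgebraicClosure K) := N ⊔ K₁' with hH
  have hHfd : FiniteDimensional K H := IntermediateField.finiteDimensional_sup N K₁'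
  have hHg : IsGalois K H := inferInstance
  -- number fields
  have hNnf : NumberField N := NumberField.of_module_finite K N
  have hHnf : NumberField H := NumberField.of_module_finite K H
  -- algebras
  let _ : Algebra K₁ H := (jA.codRestrict H.toSubalgebra
    (fun x => (le_sup_right : K₁' ≤ H) (hjm x))).toRingHom.toAlgebra
  have hmap₁ : ∀ x : K₁, ((algebraMap K₁ H x : H) : AlgebraicClosure K) = j x := fun _ => rfl
  have ht₁ : IsScalarTower K K₁ H := IsScalarTower.of_algebraMap_eq (fun x => by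
    apply Subtype.ext
    rw [hmap₁, hj]
    rfl)
  let _ : Algebra N H := (IntermediateField.inclusion (le_sup_left : N ≤ H)).toRingHom.toAlgebra
  have hmap₂ : ∀ x : N, ((algebraMap N H x : H) : AlgebraicClosure K) = x := fun _ => rfl
  have ht₂ : IsScalarTower K N H := IsScalarTower.of_algebraMap_eq (fun x => rfl)
  have hg₁ : IsGalois K₁ H := IsGalois.tower_top_of_isGalois K K₁ H
  -- generation
  have hgen' : ∀ g : H ≃ₐ[K] H, (∀ x : K₁, g (algebraMap K₁ H x) = algebraMap K₁ H x) →
      (∀ y : N, g (algebraMap N H y) = algebraMap N H y) → g = 1 := by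
    intro g h1 h2
    have hcl := (inferInstance : IsGalois K (AlgebraicClosure K))
    set G : AlgebraicClosure K ≃ₐ[K] AlgebraicClosure K :=
      AlgEquiv.liftNormal g (AlgebraicClosure K) with hG
    have hGg : ∀ x : H, G (x : AlgebraicClosure K) = ((g x : H) : AlgebraicClosure K) :=
      fun x => AlgEquiv.liftNormal_commutes g (AlgebraicClosure K) x
    have hle : (N ⊔ K₁').toSubalgebra ≤
        AlgHom.equalizer (G : AlgebraicClosure K →ₐ[K] AlgebraicClosure K) (AlgHom.id K _) := by
      rw [IntermediateField.sup_toSubalgebra_of_right]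
      refine sup_le ?_ ?_
      · intro y hy
        have h3 := hGg (algebraMap N H ⟨y, hy⟩)
        rw [h2] at h3
        exact h3
      · rintro y ⟨x, hx⟩
        have h3 := hGg (algebraMap K₁ H x)
        rw [h1] at h3
        have h4 : y = j x := hx.symm
        rw [h4]
        exact h3
    apply AlgEquiv.ext
    intro x
    apply Subtype.ext
    rw [← hGg]
    exact hle x.2
  -- the root
  obtain ⟨s, hs⟩ := IsAlgClosed.exists_pow_nat_eq (j (a : K₁)) hp.pos
  have hsH : s ∈ H := by
    have hcl := (inferInstance : IsGalois K (AlgebraicClosure K))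
    rw [← InfiniteGalois.fixedField_fixingSubgroup H]
    rw [IntermediateField.mem_fixedField_iff]
    intro g hg
    rw [IntermediateField.mem_fixingSubgroup_iff] at hg
    exact hgen s hs g (fun y hy => hg y ((le_sup_left : N ≤ H) hy))
      (fun x => hg _ ((le_sup_right : K₁' ≤ H) (hjm x)))
  apply nice
  intro w hw n hn
  obtain ⟨Q, hQ1, hQ2⟩ := Ideal.exists_maximal_ideal_liesOver_of_isIntegral (S := 𝓞 H) w.asIdeal
  have hQ0 : Q ≠ ⊥ := by
    rintro rfl
    apply w.ne_bot
    rw [hQ2.over]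
    exact Ideal.under_bot _ _
  set P : HeightOneSpectrum (𝓞 H) := ⟨Q, hQ1.isPrime, hQ0⟩ with hP
  have hPw : bel K₁ P = w := by
    apply HeightOneSpectrum.ext
    exact hQ2.over.symm
  have hpP : (p : 𝓞 H) ∈ P.asIdeal := by
    have h1 : (p : 𝓞 K₁) ∈ Q.under (𝓞 K₁) := by
      rw [← hQ2.over]
      exact hw
    have h2 : algebraMap (𝓞 K₁) (𝓞 H) (p : 𝓞 K₁) ∈ Q := h1
    rw [map_natCast] at h2
    exact h2
  have hpv : (p : 𝓞 K) ∈ (bel K (bel N P)).asIdeal := by
    have h1 : algebraMap (𝓞 K) (𝓞 N) (p : 𝓞 K) ∈ (bel N P).asIdeal := by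
      rw [map_natCast]
      show algebraMap (𝓞 N) (𝓞 H) (p : 𝓞 N) ∈ P.asIdeal
      rw [map_natCast]
      exact hpP
    exact h1
  have hVf : FreeP K (bel N P) := by
    apply free_of_split
    rw [hNp]
    exact hNs _ hpv
  have hPf : FreeP K₁ P := free_comp hgen' P hVf
  obtain ⟨y, hy0, hy⟩ := local_root P hPf p ⟨s, hsH⟩ (a : K₁) a.ne_zero hp.ne_zero
    (Subtype.ext hs) n hn
  rw [hPw] at hy
  exact ⟨y, hy0, hy⟩

end Pool.Agent.Helper14.PP
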